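import Pool.Agent.Y821.CB.F

set_option autoImplicit false
open Set Metric

namespace Pool.Agent.Results.MP_41a254_co.SharpAllDimensions

/-- Euclidean `d`-space. -/
abbrev Ed (d : ℕ) : Type := EuclideanSpace ℝ (Fin d)

variable {d : ℕ}

/-- A convex body: a compact convex set with nonempty interior. -/
def IsConvexBody (K : Set (Ed d)) : Prop := IsCompact K ∧ Convex ℝ K ∧ (interior K).Nonempty

open scoped Pointwise in
/-- An outer parallel body: the Minkowski sum `Q + r B` of a nonempty compact convex set `Q` and a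
closed ball of radius `r > 0`. (Such a body is smooth: it is a union of balls of radius `r`.) -/
def IsOuterParallel (K : Set (Ed d)) : Prop :=
  ∃ (Q : Set (Ed d)) (r : ℝ), IsCompact Q ∧ Convex ℝ Q ∧ Q.Nonempty ∧ 0 < r ∧
    K = Q + closedBall 0 r

/-- Some hyperplane `{x | ⟪u, x⟫ = t}` (with `u ≠ 0`) strictly separates `X` from `Y`. -/
def SeparatedByHyperplane (X Y : Set (Ed d)) : Prop :=
  ∃ (u : Ed d) (t : ℝ), u ≠ 0 ∧ (∀ x ∈ X, inner ℝ u x < t) ∧ (∀ y ∈ Y, t < inner ℝ u y)

/-- A family is separable if for any three distinct members `A, B, C` some hyperplane separates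
`A ∪ B` from `C`. -/
def Separable (F : Set (Set (Ed d))) : Prop :=
  ∀ A ∈ F, ∀ B ∈ F, ∀ C ∈ F, A ≠ B → A ≠ C → B ≠ C → SeparatedByHyperplane (A ∪ B) C

/-- The hyperplane `{x | ⟪u, x⟫ = t}` supports `K`: it meets `K`, and `K` lies on one of its two
sides. -/
def Supports (u : Ed d) (t : ℝ) (K : Set (Ed d)) : Prop :=
  (∃ x ∈ K, inner ℝ u x = t) ∧ ((∀ x ∈ K, inner ℝ u x ≤ t) ∨ (∀ x ∈ K, t ≤ inner ℝ u x))

/-- A family in `d`-space is nondegenerate if no `d + 1` members have a common supporting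
hyperplane (whatever the sides on which they lie). -/
def Nondegenerate (F : Set (Set (Ed d))) : Prop :=
  ∀ G ⊆ F, G.ncard = d + 1 → ¬ ∃ (u : Ed d) (t : ℝ), u ≠ 0 ∧ ∀ K ∈ G, Supports u t K

/-- The members of `F` are in convex position: for every member `C`, the boundary of
`conv (⋃ F)` contains a piece `S` of the boundary of `C`, that is, a subset of `∂C` with
nonempty interior relative to `∂C`. -/
def InConvexPosition (F : Set (Set (Ed d))) : Prop :=
  ∀ C ∈ F, ∃ S : Set (Ed d), S ⊆ frontier C ∧ S ⊆ frontier (convexHull ℝ (⋃₀ F)) ∧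
    ∃ V : Set (Ed d), IsOpen V ∧ (V ∩ frontier C).Nonempty ∧ V ∩ frontier C ⊆ S

/-- The families of the theorem: finite, separable, nondegenerate families of pairwise disjoint
convex bodies, each of which is an outer parallel body. -/
def IsNiceFamily (F : Set (Set (Ed d))) : Prop :=
  F.Finite ∧ (∀ K ∈ F, IsConvexBody K ∧ IsOuterParallel K) ∧ F.PairwiseDisjoint id ∧
    Separable F ∧ Nondegenerate F

lemma exists_family (hd : 3 ≤ d) {n : ℕ} (hn : 4 ≤ n) : ∃ F : Set (Set (Ed d)),
    IsNiceFamily F ∧ F.ncard = n ∧ (∀ G ⊆ F, G ≠ F → InConvexPosition G) ∧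
      ¬ InConvexPosition F := by
  obtain ⟨F, h1, h2, h3, h4, h5, h6, h7, h8⟩ :=
    Pool.Agent.Y821.CB.family_of_config (Pool.Agent.Y821.CB.config (m := n - 2) hd (by omega))
  rw [Fintype.card_option, Fintype.card_fin] at h2
  rw [finrank_euclideanSpace_fin] at h6
  exact ⟨F, ⟨h1, h3, h4, h5, h6⟩, by omega, h7, h8⟩

lemma small (hd : 3 ≤ d) {F : Set (Set (Ed d))} (hF : IsNiceFamily F)
    (hnot : ¬ InConvexPosition F) : 4 ≤ F.ncard := by
  by_contra hlt
  have : Nonempty (Fin d) := ⟨⟨0, by omega⟩⟩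
  have : Nontrivial (Ed d) := inferInstance
  obtain ⟨h1, h2, h3, h4, -⟩ := hF
  exact hnot (Pool.Agent.Y821.CB.small_family h1 (by omega) (fun K hK => (h2 K hK).2) h3 h4)

/-- In every dimension `d ≥ 3`: (1) a separable nondegenerate family of `n` pairwise disjoint
convex bodies, each an outer parallel body, which is not in convex position although all its
proper subfamilies are, exists if and only if `n ≥ 4`; (2) such a family of `n` bodies, every `k`
of which are in convex position although all `n` are not, exists if and only if `n ≥ 4` and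
`n ≠ k`. -/
theorem result (d : ℕ) (hd : 3 ≤ d) :
    (∀ n : ℕ, (∃ F : Set (Set (Ed d)), IsNiceFamily F ∧ F.ncard = n ∧
        (∀ G ⊆ F, G ≠ F → InConvexPosition G) ∧ ¬ InConvexPosition F) ↔ 4 ≤ n) ∧
    (∀ k n : ℕ, (∃ F : Set (Set (Ed d)), IsNiceFamily F ∧ F.ncard = n ∧
        (∀ G ⊆ F, G.ncard = k → InConvexPosition G) ∧ ¬ InConvexPosition F) ↔
      4 ≤ n ∧ n ≠ k) := by
  refine ⟨fun n => ⟨?_, fun hn => exists_family hd hn⟩, fun k n => ⟨?_, ?_⟩⟩
  · rintro ⟨F, hF, rfl, -, hnot⟩
    exact small hd hF hnot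
  · rintro ⟨F, hF, rfl, hk, hnot⟩
    exact ⟨small hd hF hnot, fun h => hnot (hk F subset_rfl h)⟩
  · rintro ⟨hn, hnk⟩
    obtain ⟨F, hF, hc, hG, hnot⟩ := exists_family hd hn
    refine ⟨F, hF, hc, fun G hGF hGk => hG G hGF ?_, hnot⟩
    rintro rfl
    exact hnk (hc.symm.trans hGk)

end Pool.Agent.Results.MP_41a254_co.SharpAllDimensions
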